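import Mathlib
import Pool.Agent.Lib.helper21.PR

namespace Pool.Agent.H.MP_fbc7b8_lc

open Pool.Agent.Lib.helper21.PR Nat.Partrec

/-- vertex number j (j < 10) of the cell at position k, depth d, of forest e -/
def vt (e d k j : ℕ) : ℕ := 10 * Nat.pair e (Nat.pair d k) + j

/-- neighbour lists of the ten-vertex gadget -/
def gn (j : ℕ) : List ℕ :=
  [[2, 3, 5, 9], [2, 3, 4, 6, 8], [0, 1, 5, 7, 9], [0, 1, 5, 7, 9], [1, 6, 7, 8], [0, 2, 3, 6, 8],
    [1, 4, 5, 7, 9], [2, 3, 4, 6, 8], [1, 4, 5, 7, 9], [0, 2, 3, 6, 8]].getD j []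

def P (e d : ℕ) : Prop :=
  Code.evaln d (Denumerable.ofNat Code e) (vt e 0 0 0) = some (d % 2)

def alive (e d : ℕ) : Prop := ∀ d' < d, ¬ P e d'

open Classical in
noncomputable def nb' (e d k j : ℕ) : List ℕ :=
  if alive e d then
    (if j = 0 ∧ d ≠ 0 then [vt e (d - 1) (k / 4) 0] else []) ++
      (if P e d then (gn j).map (fun i => vt e d k i)
       else if j = 0 then (List.range 4).map (fun i => vt e (d + 1) (4 * k + i) 0) else [])
  else []

noncomputable def nb (x : ℕ) : List ℕ :=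
  nb' (x / 10).unpair.1 (x / 10).unpair.2.unpair.1 (x / 10).unpair.2.unpair.2 (x % 10)

theorem nb_prim : Primrec nb := by
  unfold nb nb' alive P gn vt
  fun_prop

theorem nb_vt (e d k j : ℕ) (hj : j < 10) : nb (vt e d k j) = nb' e d k j := by
  have h1 : vt e d k j / 10 = Nat.pair e (Nat.pair d k) := by unfold vt; omega
  have h2 : vt e d k j % 10 = j := by unfold vt; omega
  simp [nb, h1, h2]

theorem ex_vt (x : ℕ) : ∃ e d k j, j < 10 ∧ x = vt e d k j :=
  ⟨(x / 10).unpair.1, (x / 10).unpair.2.unpair.1, (x / 10).unpair.2.unpair.2, x % 10,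
    Nat.mod_lt _ (by norm_num), by simp only [vt, Nat.pair_unpair]; omega⟩

theorem vt_inj {e d k j e' d' k' j' : ℕ} (hj : j < 10) (hj' : j' < 10) :
    vt e d k j = vt e' d' k' j' ↔ e = e' ∧ d = d' ∧ k = k' ∧ j = j' := by
  constructor
  · intro h
    have h1 : Nat.pair e (Nat.pair d k) = Nat.pair e' (Nat.pair d' k') := by unfold vt at h; omega
    have h2 : j = j' := by unfold vt at h; omega
    simp only [Nat.pair_eq_pair] at h1
    exact ⟨h1.1, h1.2.1, h1.2.2, h2⟩
  · rintro ⟨rfl, rfl, rfl, rfl⟩; rfl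

theorem gn_lt : ∀ j < 10, ∀ i ∈ gn j, i < 10 ∧ j ∈ gn i ∧ i ≠ j := by decide
theorem gn_nodup : ∀ j < 10, (gn j).Nodup ∧ (gn j).length ≤ 5 := by decide

theorem mem_nb' {e d k j y : ℕ} : y ∈ nb' e d k j ↔ alive e d ∧
    ((j = 0 ∧ d ≠ 0 ∧ y = vt e (d - 1) (k / 4) 0) ∨ (P e d ∧ ∃ i ∈ gn j, y = vt e d k i) ∨
      (¬ P e d ∧ j = 0 ∧ ∃ i < 4, y = vt e (d + 1) (4 * k + i) 0)) := by
  unfold nb'
  by_cases h1 : alive e d <;> by_cases h2 : P e d <;> by_cases h3 : j = 0 <;>
    by_cases h4 : d ≠ 0 <;> simp only [h1, h2, h3, h4] <;> simp [eq_comm]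

theorem nb_symm {x y : ℕ} (h : y ∈ nb x) : x ∈ nb y := by
  obtain ⟨e, d, k, j, hj, rfl⟩ := ex_vt x
  rw [nb_vt _ _ _ _ hj, mem_nb'] at h
  obtain ⟨ha, ⟨rfl, hd, rfl⟩ | ⟨hp, i, hi, rfl⟩ | ⟨hp, rfl, i, hi, rfl⟩⟩ := h
  · rw [nb_vt _ _ _ _ (by norm_num), mem_nb']
    refine ⟨fun d' hd' => ha d' (by omega), Or.inr (Or.inr ⟨ha _ (by omega), rfl, k % 4,
      Nat.mod_lt _ (by norm_num), ?_⟩)⟩
    congr 1 <;> omega
  · rw [nb_vt _ _ _ _ (gn_lt j hj i hi).1, mem_nb']
    exact ⟨ha, Or.inr (Or.inl ⟨hp, j, (gn_lt j hj i hi).2.1, rfl⟩)⟩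
  · rw [nb_vt _ _ _ _ (by norm_num), mem_nb']
    refine ⟨fun d' hd' => ?_, Or.inl ⟨rfl, by omega, ?_⟩⟩
    · rcases Nat.lt_succ_iff_lt_or_eq.1 hd' with h | rfl
      · exact ha _ h
      · exact hp
    · congr 1; omega

theorem nb_irrefl (x : ℕ) : x ∉ nb x := by
  intro h
  obtain ⟨e, d, k, j, hj, rfl⟩ := ex_vt x
  rw [nb_vt _ _ _ _ hj, mem_nb'] at h
  obtain ⟨ha, ⟨rfl, hd, h⟩ | ⟨hp, i, hi, h⟩ | ⟨hp, rfl, i, hi, h⟩⟩ := h
  · rw [vt_inj (by norm_num) (by norm_num)] at h; omega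
  · rw [vt_inj hj (gn_lt j hj i hi).1] at h
    exact (gn_lt j hj i hi).2.2 h.2.2.2.symm
  · rw [vt_inj (by norm_num) (by norm_num)] at h; omega

theorem nd1 (e d k j : ℕ) (hj : j < 10) : ((gn j).map (fun i => vt e d k i)).Nodup :=
  (gn_nodup j hj).1.map_on fun a ha b hb h =>
    ((vt_inj (gn_lt j hj a ha).1 (gn_lt j hj b hb).1).1 h).2.2.2

theorem nd2 (e d k : ℕ) : ((List.range 4).map (fun i => vt e (d + 1) (4 * k + i) 0)).Nodup :=
  List.nodup_range.map_on fun a _ b _ h => by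
    have := ((vt_inj (by norm_num) (by norm_num)).1 h).2.2.1
    omega

theorem nb_nodup (x : ℕ) : (nb x).Nodup := by
  obtain ⟨e, d, k, j, hj, rfl⟩ := ex_vt x
  rw [nb_vt _ _ _ _ hj]
  unfold nb'
  split_ifs with h1 h2 h3 h4 h5 h6
  · refine List.nodup_append.2 ⟨by simp, nd1 _ _ _ _ hj, ?_⟩
    intro a ha b hb hab
    rw [List.mem_singleton] at ha
    obtain ⟨i, hi, rfl⟩ := List.mem_map.1 hb
    rw [ha, vt_inj (by norm_num) (gn_lt j hj i hi).1] at hab
    omega
  · refine List.nodup_append.2 ⟨by simp, nd2 _ _ _, ?_⟩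
    intro a ha b hb hab
    rw [List.mem_singleton] at ha
    obtain ⟨i, hi, rfl⟩ := List.mem_map.1 hb
    rw [ha, vt_inj (by norm_num) (by norm_num)] at hab
    omega
  · simp
  · simpa using nd1 _ _ _ _ hj
  · simpa using nd2 _ _ _
  · simp
  · simp

theorem nb_len (x : ℕ) : (nb x).length ≤ 5 := by
  obtain ⟨e, d, k, j, hj, rfl⟩ := ex_vt x
  rw [nb_vt _ _ _ _ hj]
  unfold nb'
  have := (gn_nodup j hj).2
  split_ifs with h1 h2 h3 h4 h5 h6
  · obtain ⟨rfl, -⟩ := h2
    simp [gn]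
  · simp
  · simp
  · simpa using this
  · simp
  · simp
  · simp

theorem nb_five : (nb (vt 0 1 0 0)).length = 5 := by
  rw [nb_vt _ _ _ _ (by norm_num)]
  have ha : alive 0 1 := by
    intro d' hd'
    obtain rfl : d' = 0 := by omega
    simp [P, Code.evaln]
  unfold nb'
  split_ifs <;> simp_all [gn]

def G : SimpleGraph ℕ where
  Adj x y := y ∈ nb x
  symm := ⟨fun _ _ h => nb_symm h⟩
  loopless := ⟨fun x h => nb_irrefl x h⟩

theorem nbset (x : ℕ) : G.neighborSet x = ((nb x).toFinset : Set ℕ) := by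
  ext y; simp [G, SimpleGraph.neighborSet]

theorem ncard_nb (x : ℕ) : (G.neighborSet x).ncard = (nb x).length := by
  rw [nbset, Set.ncard_coe_finset, List.toFinset_card_of_nodup (nb_nodup x)]

open Classical in
theorem cnt (x : ℕ) (W : Set ℕ) (l : List ℕ) (hl : l.Nodup) (h : ∀ y ∈ l, y ∈ nb x) :
    l.countP (fun y => decide (y ∈ W)) ≤ (G.neighborSet x ∩ W).ncard := by
  rw [List.countP_eq_length_filter, ← List.toFinset_card_of_nodup (hl.filter _),
    ← Set.ncard_coe_finset]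
  refine Set.ncard_le_ncard ?_ (Set.Finite.inter_of_left (by rw [nbset]; simp) _)
  intro y hy
  simp only [List.toFinset_filter, Finset.coe_filter, List.mem_toFinset, decide_eq_true_eq,
    Set.mem_ofPred_eq] at hy
  exact ⟨h y hy.1, hy.2⟩

theorem gadget : ∀ b0 b1 b2 b3 b4 b5 b6 b7 b8 b9 : Bool,
    (∀ j < 10, ([b0, b1, b2, b3, b4, b5, b6, b7, b8, b9].getD j false = true →
        (gn j).countP (fun i => [b0, b1, b2, b3, b4, b5, b6, b7, b8, b9].getD i false) ≤ 3) ∧
      ([b0, b1, b2, b3, b4, b5, b6, b7, b8, b9].getD j false = false →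
        (gn j).countP (fun i => !([b0, b1, b2, b3, b4, b5, b6, b7, b8, b9].getD i false)) ≤ 1)) →
    b0 = true := by decide +kernel

section
variable {V₁ V₂ : Set ℕ} (hu : ∀ x, x ∈ V₂ ↔ x ∉ V₁)
  (h1 : ∀ x ∈ V₁, (G.neighborSet x ∩ V₁).ncard ≤ 3) (h2 : ∀ x ∈ V₂, (G.neighborSet x ∩ V₂).ncard ≤ 1)
include hu h1 h2

theorem port {e s : ℕ} (ha : alive e s) (hp : P e s) (k : ℕ) : vt e s k 0 ∈ V₁ := by
  classical
  let b : ℕ → Bool := fun i => decide (vt e s k i ∈ V₁)
  have hb : ∀ i < 10, [b 0, b 1, b 2, b 3, b 4, b 5, b 6, b 7, b 8, b 9].getD i false = b i := by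
    intro i hi
    interval_cases i <;> rfl
  have := gadget (b 0) (b 1) (b 2) (b 3) (b 4) (b 5) (b 6) (b 7) (b 8) (b 9) ?_
  · simpa [b] using this
  intro j hj
  have hm : ∀ y ∈ (gn j).map (fun i => vt e s k i), y ∈ nb (vt e s k j) := by
    intro y hy
    obtain ⟨i, hi, rfl⟩ := List.mem_map.1 hy
    rw [nb_vt _ _ _ _ hj, mem_nb']
    exact ⟨ha, Or.inr (Or.inl ⟨hp, i, hi, rfl⟩)⟩
  rw [hb j hj]
  constructor
  · intro h
    have hv : vt e s k j ∈ V₁ := by simpa [b] using h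
    have := (cnt _ V₁ _ (nd1 e s k j hj) hm).trans (h1 _ hv)
    rw [List.countP_map] at this
    refine le_trans (le_of_eq ?_) this
    refine List.countP_congr fun i hi => ?_
    rw [hb i (gn_lt j hj i hi).1]
    simp [b]
  · intro h
    have hv : vt e s k j ∈ V₂ := by simpa [b, hu] using h
    have := (cnt _ V₂ _ (nd1 e s k j hj) hm).trans (h2 _ hv)
    rw [List.countP_map] at this
    refine le_trans (le_of_eq ?_) this
    refine List.countP_congr fun i hi => ?_
    rw [hb i (gn_lt j hj i hi).1]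
    simp [b, hu]

theorem levels {e s : ℕ} (ha : alive e s) (hp : P e s) (t : ℕ) :
    ∀ d, d + t = s → ∀ k, (vt e d k 0 ∈ V₁ ↔ t % 2 = 0) := by
  classical
  induction t with
  | zero =>
    intro d hd k
    obtain rfl : d = s := by omega
    simpa using port hu h1 h2 ha hp k
  | succ t ih =>
    intro d hd k
    have ih' := ih (d + 1) (by omega)
    have hm : ∀ y ∈ (List.range 4).map (fun i => vt e (d + 1) (4 * k + i) 0),
        y ∈ nb (vt e d k 0) := by
      intro y hy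
      obtain ⟨i, hi, rfl⟩ := List.mem_map.1 hy
      rw [nb_vt _ _ _ _ (by norm_num), mem_nb']
      exact ⟨fun d' hd' => ha d' (by omega), Or.inr (Or.inr ⟨ha d (by omega), rfl, i,
        List.mem_range.1 hi, rfl⟩)⟩
    by_cases ht : t % 2 = 0
    · have hn : vt e d k 0 ∉ V₁ := by
        intro hv
        have := (cnt _ V₁ _ (nd2 e d k) hm).trans (h1 _ hv)
        rw [List.countP_map, List.countP_eq_length.2] at this
        · simp at this
        · intro i _
          simpa using (ih' _).2 ht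
      simp only [hn, false_iff]
      omega
    · have hn : vt e d k 0 ∈ V₁ := by
        by_contra hv
        have := (cnt _ V₂ _ (nd2 e d k) hm).trans (h2 _ ((hu _).2 hv))
        rw [List.countP_map, List.countP_eq_length.2] at this
        · simp at this
        · intro i _
          simpa [hu] using fun h => ht ((ih' _).1 h)
      simp only [hn, true_iff]
      omega

theorem not_comp : ¬ ComputablePred fun x : ℕ => x ∈ V₁ := by
  classical
  intro hc
  have hf : Computable fun x : ℕ => if x ∈ V₁ then 1 else 0 := by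
    obtain ⟨f, hf, he⟩ := ComputablePred.computable_iff.1 hc
    refine (Computable.cond hf (Computable.const 1) (Computable.const 0)).of_eq fun x => ?_
    have : (x ∈ V₁) = (f x = true) := congrFun he x
    by_cases hx : f x = true <;> simp [this, hx]
  obtain ⟨c, hc⟩ := Code.exists_code.1 (Partrec.nat_iff.1 hf)
  set e := Encodable.encode c
  set r := vt e 0 0 0
  set b : ℕ := if r ∈ V₁ then 1 else 0 with hb
  have hev : b ∈ c.eval r := by rw [hc]; simp [hb]
  obtain ⟨n, hn⟩ := Code.evaln_complete.1 hev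
  have hce : Denumerable.ofNat Code e = c := by simp [e]
  have hb2 : b < 2 := by rw [hb]; split_ifs <;> norm_num
  have hex : ∃ d, P e d := by
    refine ⟨2 * n + b, ?_⟩
    unfold P
    rw [hce]
    have := Code.evaln_mono (show n ≤ 2 * n + b by omega) hn
    rw [Option.mem_def] at this
    rw [this]
    congr 1
    omega
  obtain ⟨s, hp, ha⟩ : ∃ s, P e s ∧ alive e s :=
    ⟨Nat.find hex, Nat.find_spec hex, fun d' hd' => Nat.find_min hex hd'⟩
  have hl := levels hu h1 h2 ha hp s 0 (by simp) 0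
  have hs : s % 2 ∈ c.eval r := by
    apply Code.evaln_sound (k := s)
    unfold P at hp
    rw [hce] at hp
    exact hp
  have := Part.mem_unique hs hev
  rw [hb] at this
  by_cases hr : r ∈ V₁
  · have := hl.1 hr
    simp_all
  · rw [if_neg hr] at this
    exact hr (hl.2 this)

end

end Pool.Agent.H.MP_fbc7b8_lc
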